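import Pool.Agent.Helper14.LE.St

/-!
Project LE, module IEA: the Hamiltonian and the tangential correction of an isotropic isotopy.
-/

set_option autoImplicit false

open scoped ContDiff Topology
open MeasureTheory Set Filter

namespace Pool.Agent.Helper8.LE

open Pool.Agent.Helper14.LK Pool.Agent.Helper14.LE

private theorem fd_slice {V G : Type} [NormedAddCommGroup V] [NormedSpace ℝ V]
    [NormedAddCommGroup G] [NormedSpace ℝ G] {F : ℝ × V → G} (hF : ContDiff ℝ ∞ F) (t : ℝ) (x : V) :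
    HasFDerivAt (fun y => F (t, y)) ((fderiv ℝ F (t, x)).comp (ContinuousLinearMap.inr ℝ ℝ V)) x := by
  have h1 : HasFDerivAt F (fderiv ℝ F (t, x)) (t, x) :=
    ((hF.differentiable (by simp)) (t, x)).hasFDerivAt
  have h2 : HasFDerivAt (fun y : V => ((t, y) : ℝ × V)) (ContinuousLinearMap.inr ℝ ℝ V) x :=
    hasFDerivAt_prodMk_right t x
  exact h1.comp x h2

private theorem d_time {V G : Type} [NormedAddCommGroup V] [NormedSpace ℝ V]
    [NormedAddCommGroup G] [NormedSpace ℝ G] {F : ℝ × V → G} (hF : ContDiff ℝ ∞ F) (t : ℝ) (x : V) :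
    HasDerivAt (fun s => F (s, x)) (fderiv ℝ F (t, x) (1, 0)) t := by
  have h1 : HasFDerivAt F (fderiv ℝ F (t, x)) (t, x) :=
    ((hF.differentiable (by simp)) (t, x)).hasFDerivAt
  have h2 : HasDerivAt (fun s : ℝ => ((s, x) : ℝ × V)) (1, 0) t :=
    (hasDerivAt_id t).prodMk (hasDerivAt_const t x)
  exact h1.comp_hasDerivAt t h2

private theorem smooth_fderiv {V G : Type} [NormedAddCommGroup V] [NormedSpace ℝ V]
    [NormedAddCommGroup G] [NormedSpace ℝ G] {F : V → G} (hF : ContDiff ℝ ∞ F) :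
    ContDiff ℝ ∞ (fderiv ℝ F) := hF.fderiv_right (m := ∞) (by simp)

private theorem eval_fderiv {V W G : Type} [NormedAddCommGroup V] [NormedSpace ℝ V]
    [NormedAddCommGroup W] [NormedSpace ℝ W]
    [NormedAddCommGroup G] [NormedSpace ℝ G] {F : V → (W →L[ℝ] G)} (hF : ContDiff ℝ ∞ F) (e : W)
    (q : V) : HasFDerivAt (fun q => F q e) ((fderiv ℝ F q).flip e) q := by
  have h1 : HasFDerivAt F (fderiv ℝ F q) q := ((hF.differentiable (by simp)) q).hasFDerivAt
  have h2 := h1.clm_apply (hasFDerivAt_const e q)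
  simpa using h2

private theorem der_om {n : ℕ} {F : ℝ × EE n → WW n} (hF : ContDiff ℝ ∞ F) (e f v q : ℝ × EE n) :
    fderiv ℝ (fun q => om (fderiv ℝ F q e) (fderiv ℝ F q f)) q v =
      om (fderiv ℝ (fderiv ℝ F) q v e) (fderiv ℝ F q f) +
        om (fderiv ℝ F q e) (fderiv ℝ (fderiv ℝ F) q v f) := by
  have hD := smooth_fderiv hF
  have h := (omL n).hasFDerivAt_of_bilinear (eval_fderiv hD e q) (eval_fderiv hD f q)
  simp only [omL_apply] at h
  rw [h.fderiv]
  simp [ContinuousLinearMap.precompR_apply, ContinuousLinearMap.precompL_apply]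
  ring

/-- the one-form of the isotopy -/
private noncomputable def bb {n : ℕ} (F : ℝ × EE n → WW n) (q : ℝ × EE n) : EE n →L[ℝ] ℝ :=
  (omL n (fderiv ℝ F q (1, 0))).comp ((fderiv ℝ F q).comp (ContinuousLinearMap.inr ℝ ℝ (EE n)))

private theorem bb_apply {n : ℕ} (F : ℝ × EE n → WW n) (q : ℝ × EE n) (b : EE n) :
    bb F q b = om (fderiv ℝ F q (1, 0)) (fderiv ℝ F q (0, b)) := by
  simp [bb]

private theorem bb_smooth {n : ℕ} {F : ℝ × EE n → WW n} (hF : ContDiff ℝ ∞ F) :
    ContDiff ℝ ∞ (bb F) := by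
  have hD := smooth_fderiv hF
  have h1 : ContDiff ℝ ∞ (fun q => fderiv ℝ F q ((1, 0) : ℝ × EE n)) := hD.clm_apply contDiff_const
  have h2 : ContDiff ℝ ∞ (fun q => omL n (fderiv ℝ F q ((1, 0) : ℝ × EE n))) :=
    (omL n).contDiff.comp h1
  exact h2.clm_comp (hD.clm_comp contDiff_const)

private theorem bb_closed {n : ℕ} {F : ℝ × EE n → WW n} (hF : ContDiff ℝ ∞ F)
    (hiso : ∀ q u v, om (fderiv ℝ F q (0, u)) (fderiv ℝ F q (0, v)) = 0)
    (t : ℝ) (x a b : EE n) :
    fderiv ℝ (fun y => bb F (t, y)) x a b = fderiv ℝ (fun y => bb F (t, y)) x b a := by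
  have key : ∀ a b : EE n, fderiv ℝ (fun y => bb F (t, y)) x a b =
      om (fderiv ℝ (fderiv ℝ F) (t, x) (0, a) (1, 0)) (fderiv ℝ F (t, x) (0, b)) +
        om (fderiv ℝ F (t, x) (1, 0)) (fderiv ℝ (fderiv ℝ F) (t, x) (0, a) (0, b)) := by
    intro a b
    rw [(fd_slice (bb_smooth hF) t x).fderiv]
    have h1 := (eval_fderiv (bb_smooth hF) b (t, x)).fderiv
    have h2 : (fun q => bb F q b) = fun q => om (fderiv ℝ F q (1, 0)) (fderiv ℝ F q (0, b)) :=
      funext fun q => bb_apply F q b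
    rw [h2] at h1
    have h3 := der_om hF (1, 0) (0, b) (0, a) (t, x)
    rw [h1] at h3
    simpa using h3
  have sym : ∀ v w : ℝ × EE n, fderiv ℝ (fderiv ℝ F) (t, x) v w =
      fderiv ℝ (fderiv ℝ F) (t, x) w v := by
    intro v w
    have h2 : minSmoothness ℝ 2 ≤ (∞ : WithTop ℕ∞) := by
      rw [minSmoothness_of_isRCLikeNormedField]
      exact WithTop.coe_le_coe.2 le_top
    exact (hF.contDiffAt.isSymmSndFDerivAt h2).eq v w
  have zero : om (fderiv ℝ (fderiv ℝ F) (t, x) (1, 0) (0, a)) (fderiv ℝ F (t, x) (0, b)) +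
      om (fderiv ℝ F (t, x) (0, a)) (fderiv ℝ (fderiv ℝ F) (t, x) (1, 0) (0, b)) = 0 := by
    rw [← der_om hF (0, a) (0, b) (1, 0) (t, x)]
    have : (fun q => om (fderiv ℝ F q (0, a)) (fderiv ℝ F q (0, b))) = fun _ => (0 : ℝ) :=
      funext fun q => hiso q a b
    rw [this]
    simp
  rw [key a b, key b a, sym (0, a) (1, 0), sym (0, b) (1, 0), sym (0, b) (0, a)]
  rw [om_antisymm (fderiv ℝ F (t, x) (0, a))] at zero
  linarith

/-- the symplectic gradient, as a linear map of the differential -/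
private noncomputable def RZ (n : ℕ) : (WW n →L[ℝ] ℝ) →L[ℝ] WW n :=
  LinearMap.toContinuousLinearMap
    { toFun := fun l => (WithLp.toLp 2 (fun i => l (0, EuclideanSpace.single i 1)),
        -WithLp.toLp 2 (fun i => l (EuclideanSpace.single i 1, 0)))
      map_add' := fun l m => by
        refine Prod.ext ?_ ?_
        · ext i; simp
        · ext i; simp; ring
      map_smul' := fun r l => by
        refine Prod.ext ?_ ?_
        · ext i; simp
        · ext i; simp }

private theorem om_RZ {n : ℕ} (l : WW n →L[ℝ] ℝ) (b : WW n) : om (RZ n l) b = l b := by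
  have h1 : ∀ y : EE n, y = ∑ i, y i • EuclideanSpace.single i (1 : ℝ) := by
    intro y
    ext j
    simp [Pi.single_apply]
  have h2 : l (0, b.2) = ∑ i, b.2 i * l (0, EuclideanSpace.single i 1) := by
    have e : ((0, b.2) : WW n) = ∑ i, b.2 i • ((0, EuclideanSpace.single i 1) : WW n) := by
      refine Prod.ext ?_ ?_
      · simp [Prod.fst_sum]
      · rw [Prod.snd_sum]
        simpa using h1 b.2
    rw [e, map_sum]
    exact Finset.sum_congr rfl fun i _ => by rw [map_smul, smul_eq_mul]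
  have h3 : l (b.1, 0) = ∑ i, b.1 i * l (EuclideanSpace.single i 1, 0) := by
    have e : ((b.1, 0) : WW n) = ∑ i, b.1 i • ((EuclideanSpace.single i 1, 0) : WW n) := by
      refine Prod.ext ?_ ?_
      · rw [Prod.fst_sum]
        simpa using h1 b.1
      · simp [Prod.snd_sum]
    rw [e, map_sum]
    exact Finset.sum_congr rfl fun i _ => by rw [map_smul, smul_eq_mul]
  have h4 : l b = l (b.1, 0) + l (0, b.2) := by
    rw [← map_add]
    simp
  have e1 : (RZ n l).1 = WithLp.toLp 2 (fun i => l (0, EuclideanSpace.single i 1)) := rfl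
  have e2 : (RZ n l).2 = -WithLp.toLp 2 (fun i => l (EuclideanSpace.single i 1, 0)) := rfl
  rw [h4, h2, h3, om, e1, e2, inner_neg_left]
  simp only [PiLp.inner_apply, RCLike.inner_apply, conj_trivial]
  ring

theorem hIEA (hLAG : StLAG) (hEXL : StEXL) (hPOI : StPOI) : StIEA := by
  intro n hn ι R hι hiso himm hinj hstd htime
  obtain ⟨F, hFdef⟩ : ∃ F, F = Function.uncurry ι := ⟨_, rfl⟩
  rw [← hFdef] at hι
  have hF : ∀ t x, F (t, x) = ι t x := fun t x => by rw [hFdef]; rfl
  have hFt : ∀ t, (fun y => F (t, y)) = ι t := fun t => funext fun x => hF t x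
  have fdx : ∀ t x, HasFDerivAt (ι t) ((fderiv ℝ F (t, x)).comp
      (ContinuousLinearMap.inr ℝ ℝ (EE n))) x := by
    intro t x
    have h := fd_slice hι t x
    rwa [hFt t] at h
  have fdx' : ∀ t x u, fderiv ℝ (ι t) x u = fderiv ℝ F (t, x) (0, u) := by
    intro t x u
    rw [(fdx t x).fderiv]
    simp
  have fdt : ∀ t x, HasDerivAt (fun s => ι s x) (fderiv ℝ F (t, x) (1, 0)) t := by
    intro t x
    have h := d_time hι t x
    simpa only [hF] using h
  have hiso' : ∀ q u v, om (fderiv ℝ F q (0, u)) (fderiv ℝ F q (0, v)) = 0 := by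
    intro q u v
    rw [← fdx' q.1 q.2 u, ← fdx' q.1 q.2 v]
    exact hiso q.1 q.2 u v
  -- the time derivative vanishes
  have dt0 : ∀ t x, R ≤ ‖x‖ → fderiv ℝ F (t, x) (1, 0) = 0 := by
    intro t x hx
    have e : (fun s => ι s x) = fun _ => ((x, 0) : WW n) := funext fun s => hstd s x hx
    have h := (fdt t x).deriv
    rw [e] at h
    rw [← h]
    simp
  have dt1 : ∀ t x, t ∉ Set.Icc (0 : ℝ) 1 → fderiv ℝ F (t, x) (1, 0) = 0 := by
    intro t x ht
    rw [← (fdt t x).deriv]
    exact htime t x ht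
  -- the primitive
  have hfin : 2 ≤ Module.finrank ℝ (EE n) := by simpa using hn
  obtain ⟨K, hK, hKd, hK0⟩ := hPOI (EE n) hfin (fun t x => bb F (t, x)) (bb_smooth hι)
    (fun t v a b => bb_closed hι hiso' t v a b) R (by
      intro t v hv
      ext b
      rw [bb_apply, dt0 t v hv]
      simp)
  have hKt : ∀ t, t ∉ Set.Icc (0 : ℝ) 1 → ∀ x, K t x = 0 := by
    intro t ht x
    have hd : ∀ y, HasFDerivAt (K t) (0 : EE n →L[ℝ] ℝ) y := by
      intro y
      have h1 := fd_slice hK t y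
      have h2 : (fun y => Function.uncurry K (t, y)) = K t := rfl
      rw [h2] at h1
      have h3 : fderiv ℝ (K t) y = 0 := by
        rw [hKd]
        ext b
        rw [bb_apply, dt1 t y ht]
        simp
      have h4 := h1.fderiv
      rw [← h4, h3] at h1
      exact h1
    obtain ⟨y, hy⟩ : ∃ y : EE n, R ≤ ‖y‖ := by
      have : Nontrivial (EE n) := Module.nontrivial_of_finrank_pos (R := ℝ) (by omega)
      obtain ⟨y, hy⟩ := exists_norm_eq (EE n) (abs_nonneg R)
      exact ⟨y, by rw [hy]; exact le_abs_self R⟩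
    have h5 : K t x = K t y := by
      refine is_const_of_fderiv_eq_zero (𝕜 := ℝ) (fun z => (hd z).differentiableAt)
        (fun z => (hd z).fderiv) x y
    rw [h5]
    exact hK0 t y hy
  have hKc : HasCompactSupport (Function.uncurry K) := by
    refine HasCompactSupport.intro ((isCompact_Icc (a := (0 : ℝ)) (b := 1)).prod
      (isCompact_closedBall (0 : EE n) R)) ?_
    rintro ⟨t, x⟩ hq
    by_cases ht : t ∈ Set.Icc (0 : ℝ) 1
    · have hx : R ≤ ‖x‖ := by
        by_contra hx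
        exact hq ⟨ht, by simpa using (not_le.1 hx).le⟩
      exact hK0 t x hx
    · exact hKt t ht x
  -- the embedding
  obtain ⟨j, hj⟩ : ∃ j : ℝ × EE n → ℝ × WW n, j = fun q => (q.1, F q) := ⟨_, rfl⟩
  have hjs : ContDiff ℝ ∞ j := by
    rw [hj]
    exact contDiff_fst.prodMk hι
  have hjinj : Function.Injective j := by
    rw [hj]
    rintro ⟨t, x⟩ ⟨s, y⟩ h
    simp only [Prod.mk.injEq] at h
    obtain ⟨h1, h2⟩ := h
    subst h1
    rw [hF, hF] at h2
    rw [hinj t h2]
  have hjimm : ∀ q u, fderiv ℝ j q u = 0 → u = 0 := by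
    intro q u h
    have h1 : HasFDerivAt j ((ContinuousLinearMap.fst ℝ ℝ (EE n)).prod (fderiv ℝ F q)) q := by
      rw [hj]
      exact hasFDerivAt_fst.prodMk ((hι.differentiable (by simp)) q).hasFDerivAt
    rw [h1.fderiv] at h
    have h2 : u.1 = 0 := congrArg Prod.fst h
    have h3 : fderiv ℝ F q u = 0 := congrArg Prod.snd h
    have h4 : u = (0, u.2) := Prod.ext h2 rfl
    rw [h4] at h3
    rw [← fdx' q.1 q.2] at h3
    have h5 := himm q.1 q.2 _ h3
    rw [h4, h5]
    rfl
  have hjn : ∀ q, R ≤ ‖q‖ → ‖q‖ ≤ ‖j q‖ := by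
    rintro ⟨t, x⟩ hq
    rw [hj]
    rw [Prod.norm_mk] at hq ⊢
    rw [Prod.norm_mk]
    rcases le_total ‖x‖ ‖t‖ with h | h
    · rw [max_eq_left h]
      exact le_max_left _ _
    · rw [max_eq_right h] at hq ⊢
      refine le_trans ?_ (le_max_right _ _)
      rw [hF, hstd t x hq, Prod.norm_mk]
      exact le_max_left _ _
  have hjp : Filter.Tendsto j (Filter.cocompact (ℝ × EE n)) (Filter.cocompact (ℝ × WW n)) := by
    rw [← Metric.cobounded_eq_cocompact, ← Metric.cobounded_eq_cocompact,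
      ← tendsto_norm_atTop_iff_cobounded]
    refine tendsto_atTop_mono' _ ?_ tendsto_norm_cobounded_atTop
    filter_upwards [(tendsto_norm_cobounded_atTop (E := ℝ × EE n)).eventually_ge_atTop R] with q hq
    exact hjn q hq
  obtain ⟨H, hH, hHc, hHj⟩ := hEXL (ℝ × EE n) (ℝ × WW n) ℝ j hjs hjinj hjimm hjp
    (Function.uncurry K) hK hKc
  -- the vector field
  obtain ⟨X, hX⟩ : ∃ X : ℝ × WW n → WW n, X = fun q =>
      RZ n ((fderiv ℝ H q).comp (ContinuousLinearMap.inr ℝ ℝ (WW n))) := ⟨_, rfl⟩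
  have hXs : ContDiff ℝ ∞ X := by
    rw [hX]
    exact (RZ n).contDiff.comp ((smooth_fderiv hH).clm_comp contDiff_const)
  have hXc : HasCompactSupport X := by
    rw [hX]
    refine (hHc.fderiv (𝕜 := ℝ)).comp_left
      (g := fun l : (ℝ × WW n) →L[ℝ] ℝ => RZ n (l.comp (ContinuousLinearMap.inr ℝ ℝ (WW n)))) ?_
    simp
  have hXom : ∀ t w b, om (X (t, w)) b = fderiv ℝ (fun w => H (t, w)) w b := by
    intro t w b
    rw [hX, om_RZ, (fd_slice hH t w).fderiv]
  -- the tangential correction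
  obtain ⟨A, hA⟩ : ∃ A : ℝ × EE n → (EE n →L[ℝ] WW n), A = fun q =>
      (fderiv ℝ F q).comp (ContinuousLinearMap.inr ℝ ℝ (EE n)) := ⟨_, rfl⟩
  have hAs : ContDiff ℝ ∞ A := by
    rw [hA]
    exact (smooth_fderiv hι).clm_comp contDiff_const
  have hAa : ∀ q u, A q u = fderiv ℝ F q (0, u) := by
    intro q u
    rw [hA]
    simp
  have hAi : ∀ q u, A q u = 0 → u = 0 := by
    intro q u h
    rw [hAa, ← fdx' q.1 q.2] at h
    exact himm q.1 q.2 u h
  have hbs : ContDiff ℝ ∞ (fun q : ℝ × EE n => X (j q) - fderiv ℝ F q (1, 0)) :=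
    (hXs.comp hjs).sub ((smooth_fderiv hι).clm_apply contDiff_const)
  have hjj : ∀ t x, j (t, x) = (t, ι t x) := by
    intro t x
    rw [hj]
    simp only [hF]
  have hbA : ∀ q u, om (X (j q) - fderiv ℝ F q (1, 0)) (A q u) = 0 := by
    rintro ⟨t, x⟩ u
    rw [om_sub_left, hAa, hjj, hXom, ← bb_apply]
    have h1 : HasFDerivAt (fun w => H (t, w)) (fderiv ℝ (fun w => H (t, w)) (ι t x)) (ι t x) :=
      (fd_slice hH t (ι t x)).differentiableAt.hasFDerivAt
    have h2 := h1.comp x (fdx t x)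
    have h3 : ((fun w => H (t, w)) ∘ ι t) = K t := by
      funext y
      have h4 := hHj (t, y)
      rw [hjj] at h4
      exact h4
    rw [h3] at h2
    have h5 := hKd t x
    rw [h2.fderiv] at h5
    have h6 := congrArg (fun l : EE n →L[ℝ] ℝ => l u) h5
    simp only [ContinuousLinearMap.comp_apply, ContinuousLinearMap.inr_apply] at h6
    rw [h6, sub_self]
  obtain ⟨v, hv, hvb⟩ := hLAG.2.1 n (ℝ × EE n) A (fun q => X (j q) - fderiv ℝ F q (1, 0)) hAs hbs
    (fun q u v => by rw [hAa, hAa]; exact hiso' q u v) hAi hbA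
  have hvc : HasCompactSupport v := by
    have h1 : j ⁻¹' (tsupport X)ᶜ ∈ Filter.cocompact (ℝ × EE n) :=
      hjp (hXc.isCompact.compl_mem_cocompact)
    obtain ⟨C, hC, hCj⟩ := Filter.mem_cocompact.1 h1
    refine HasCompactSupport.intro (hC.union ((isCompact_Icc (a := (0 : ℝ)) (b := 1)).prod
      (isCompact_closedBall (0 : EE n) R))) ?_
    rintro ⟨t, x⟩ hq
    rw [Set.mem_union, not_or] at hq
    have h2 : X (j (t, x)) = 0 := by
      have h3 : (t, x) ∈ j ⁻¹' (tsupport X)ᶜ := hCj hq.1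
      exact image_eq_zero_of_notMem_tsupport h3
    have h4 : fderiv ℝ F (t, x) (1, 0) = 0 := by
      by_cases ht : t ∈ Set.Icc (0 : ℝ) 1
      · refine dt0 t x ?_
        by_contra hx
        exact hq.2 ⟨ht, by simpa using (not_le.1 hx).le⟩
      · exact dt1 t x ht
    refine hAi (t, x) _ ?_
    rw [← hvb (t, x), h2, h4, sub_zero]
  refine ⟨fun t w => H (t, w), fun t w => X (t, w), fun t x => v (t, x), hH, hHc, hXs, hXc, hv, hvc,
    hXom, ?_⟩
  intro t x
  have h1 := hvb (t, x)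
  rw [hjj, hAa, ← fdx', ← (fdt t x).deriv] at h1
  rw [← h1]
  abel

end Pool.Agent.Helper8.LE
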