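import Pool.Agent.Helper8.LE.Lin

/-!
# Local equality (MP_26ac92_gt): the body is a ball
-/

set_option autoImplicit false

namespace Pool.Helper8.LE

open MeasureTheory Filter Topology

variable {n : ℕ} {K : Set (E n)}

theorem const_of_sq {f : ℝ → ℝ} {R : ℝ} (h : ∀ x y, |f x - f y| ≤ R * |x - y| ^ 2) (x y : ℝ) : f x = f y := by
  have hd : ∀ x, HasDerivAt f 0 x := by
    intro x
    rw [hasDerivAt_iff_isLittleO]
    have h1 : (fun x' => f x' - f x - (x' - x) • (0 : ℝ)) =O[𝓝 x] fun x' => ‖x' - x‖ ^ 2 := by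
      refine Asymptotics.IsBigO.of_bound R (Eventually.of_forall fun y => ?_)
      have := h y x
      simpa [Real.norm_eq_abs] using this
    exact h1.trans_isLittleO (Asymptotics.isLittleO_pow_sub_sub x (by norm_num))
  exact is_const_of_deriv_eq_zero (fun x => (hd x).differentiableAt) (fun x => (hd x).deriv) x y

theorem ball_of (hn : 3 ≤ n) (hK : IsCompact K) (hcv : Convex ℝ K) (p : E n)
    (h : ∀ ν : E n, ‖ν‖ = 1 → ∃ s : ℝ, Fc K ν (p + s • ν)) : ∃ r : ℝ, K = Metric.closedBall p r := by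
  have h' : ∀ ν : E n, ∃ s : ℝ, ‖ν‖ = 1 → Fc K ν (p + s • ν) := by
    intro ν
    by_cases hν : ‖ν‖ = 1
    · obtain ⟨s, hs⟩ := h ν hν
      exact ⟨s, fun _ => hs⟩
    · exact ⟨0, fun h => absurd h hν⟩
  choose s hs using h'
  obtain ⟨M, hM⟩ := hK.isBounded.exists_norm_le
  have hnn : ∀ ν : E n, ‖ν‖ = 1 → (inner ℝ ν ν : ℝ) = 1 := fun ν hν => by
    rw [real_inner_self_eq_norm_sq, hν]; norm_num
  set R : ℝ := M + ‖p‖ with hR
  have hbd : ∀ ν : E n, ‖ν‖ = 1 → |s ν| ≤ R := by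
    intro ν hν
    have h1 := hM _ (hs ν hν).1
    have h2 : ‖s ν • ν‖ = |s ν| := by rw [norm_smul, hν, mul_one, Real.norm_eq_abs]
    have h3 : ‖s ν • ν‖ ≤ ‖p + s ν • ν‖ + ‖p‖ := by
      have := norm_sub_le (p + s ν • ν) p
      rwa [add_sub_cancel_left] at this
    rw [← h2]; linarith
  have hcmp : ∀ ν μ : E n, ‖ν‖ = 1 → ‖μ‖ = 1 → s ν * inner ℝ ν μ ≤ s μ := by
    intro ν μ hν hμ
    have h1 := (hs μ hμ).2 _ (hs ν hν).1
    rw [inner_add_left, inner_add_left, real_inner_smul_left, real_inner_smul_left, hnn μ hμ] at h1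
    linarith
  -- orthonormal pairs
  have horth : ∀ ν w : E n, ‖ν‖ = 1 → ‖w‖ = 1 → (inner ℝ ν w : ℝ) = 0 → s ν = s w := by
    intro ν w hν hw hνw
    let m : ℝ → E n := fun θ => Real.cos θ • ν + Real.sin θ • w
    have hin : ∀ θ η : ℝ, (inner ℝ (m θ) (m η) : ℝ) = Real.cos (θ - η) := by
      intro θ η
      show (inner ℝ (Real.cos θ • ν + Real.sin θ • w) (Real.cos η • ν + Real.sin η • w) : ℝ) = _
      rw [inner_add_left, inner_add_right, inner_add_right, real_inner_smul_left, real_inner_smul_left,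
        real_inner_smul_left, real_inner_smul_left, real_inner_smul_right, real_inner_smul_right,
        real_inner_smul_right, real_inner_smul_right, real_inner_comm ν w, hνw, hnn ν hν, hnn w hw, Real.cos_sub]
      ring
    have hmn : ∀ θ, ‖m θ‖ = 1 := by
      intro θ
      have h2 : ‖m θ‖ ^ 2 = 1 := by
        rw [← real_inner_self_eq_norm_sq, hin, sub_self, Real.cos_zero]
      have h3 := norm_nonneg (m θ)
      nlinarith
    have hone : ∀ θ η : ℝ, s (m θ) - s (m η) ≤ R / 2 * |θ - η| ^ 2 := by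
      intro θ η
      have h1 := hcmp (m θ) (m η) (hmn θ) (hmn η)
      rw [hin] at h1
      have h2 : 1 - (θ - η) ^ 2 / 2 ≤ Real.cos (θ - η) := Real.one_sub_sq_div_two_le_cos
      have h3 := Real.cos_le_one (θ - η)
      have h4 := abs_le.1 (hbd (m θ) (hmn θ))
      have h5 : s (m θ) - s (m η) ≤ s (m θ) * (1 - Real.cos (θ - η)) := by linarith
      have h6 : s (m θ) * (1 - Real.cos (θ - η)) ≤ R * (1 - Real.cos (θ - η)) :=
        mul_le_mul_of_nonneg_right h4.2 (by linarith)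
      have hR0 : 0 ≤ R := (abs_nonneg _).trans (hbd (m θ) (hmn θ))
      have h7 : R * (1 - Real.cos (θ - η)) ≤ R * ((θ - η) ^ 2 / 2) := mul_le_mul_of_nonneg_left (by linarith) hR0
      rw [sq_abs]
      linarith
    have hsq : ∀ θ η : ℝ, |s (m θ) - s (m η)| ≤ R / 2 * |θ - η| ^ 2 := by
      intro θ η
      rw [abs_le]
      refine ⟨?_, hone θ η⟩
      have := hone η θ
      rw [abs_sub_comm] at this
      linarith
    have h0 := const_of_sq (f := fun θ => s (m θ)) hsq 0 (Real.pi / 2)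
    simpa [m] using h0
  obtain ⟨a, ha, -, -⟩ := exists_one hn (0 : E n) 0
  have hall : ∀ ν : E n, ‖ν‖ = 1 → s ν = s a := by
    intro ν hν
    obtain ⟨w, hw, hνw, haw⟩ := exists_one hn ν a
    rw [horth ν w hν hw hνw, horth a w ha hw haw]
  set r : ℝ := s a with hr
  have hna : ‖-a‖ = 1 := by rw [norm_neg]; exact ha
  have hr0 : 0 ≤ r := by
    have h1 := hcmp a (-a) ha hna
    rw [hall _ hna, inner_neg_right, hnn a ha] at h1
    linarith
  have hmem : ∀ ν : E n, ‖ν‖ = 1 → p + r • ν ∈ K := fun ν hν => by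
    have := (hs ν hν).1
    rwa [hall ν hν] at this
  have hseg : ∀ ν : E n, ‖ν‖ = 1 → ∀ c : ℝ, |c| ≤ r → p + c • ν ∈ K := by
    intro ν hν c hc
    obtain ⟨hc1, hc2⟩ := abs_le.1 hc
    rcases hr0.eq_or_lt with h0 | h0
    · have : c = r := by linarith
      rw [this]; exact hmem ν hν
    · have h1 := hmem ν hν
      have h2 := hmem (-ν) (by rw [norm_neg]; exact hν)
      have h3 := hcv h1 h2 (a := (r + c) / (2 * r)) (b := (r - c) / (2 * r))
        (div_nonneg (by linarith) (by linarith)) (div_nonneg (by linarith) (by linarith)) (by field_simp; ring)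
      have h4 : ((r + c) / (2 * r)) • (p + r • ν) + ((r - c) / (2 * r)) • (p + r • -ν) = p + c • ν := by
        have e1 : (r + c) / (2 * r) + (r - c) / (2 * r) = 1 := by field_simp; ring
        have e2 : (r + c) / (2 * r) * r - (r - c) / (2 * r) * r = c := by field_simp; ring
        calc ((r + c) / (2 * r)) • (p + r • ν) + ((r - c) / (2 * r)) • (p + r • -ν)
            = ((r + c) / (2 * r) + (r - c) / (2 * r)) • p +
              ((r + c) / (2 * r) * r - (r - c) / (2 * r) * r) • ν := by module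
          _ = p + c • ν := by rw [e1, e2, one_smul]
      rwa [h4] at h3
  refine ⟨r, Set.Subset.antisymm (fun x hx => ?_) (fun y hy => ?_)⟩
  · rw [Metric.mem_closedBall, dist_eq_norm]
    by_cases hxp : x - p = 0
    · rw [hxp, norm_zero]; exact hr0
    · have hpos : 0 < ‖x - p‖ := norm_pos_iff.2 hxp
      have hu : ‖(‖x - p‖⁻¹) • (x - p)‖ = 1 := by
        rw [norm_smul, norm_inv, norm_norm, inv_mul_cancel₀ hpos.ne']
      have h1 := (hs _ hu).2 x hx
      rw [inner_add_left, real_inner_smul_left, hnn _ hu, hall _ hu] at h1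
      have h2 : (inner ℝ (x - p) ((‖x - p‖⁻¹) • (x - p)) : ℝ) ≤ r := by
        rw [inner_sub_left]; linarith
      rw [real_inner_smul_right, real_inner_self_eq_norm_sq, pow_two, ← mul_assoc, inv_mul_cancel₀ hpos.ne',
        one_mul] at h2
      exact h2
  · rw [Metric.mem_closedBall, dist_eq_norm] at hy
    by_cases hyp : y - p = 0
    · have h1 := hseg a ha 0 (by rw [abs_zero]; exact hr0)
      rw [zero_smul, add_zero] at h1
      rwa [sub_eq_zero.1 hyp]
    · have hpos : 0 < ‖y - p‖ := norm_pos_iff.2 hyp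
      have hu : ‖(‖y - p‖⁻¹) • (y - p)‖ = 1 := by
        rw [norm_smul, norm_inv, norm_norm, inv_mul_cancel₀ hpos.ne']
      have h1 := hseg _ hu ‖y - p‖ (by rw [abs_norm]; exact hy)
      rw [smul_smul, mul_inv_cancel₀ hpos.ne', one_smul, add_sub_cancel] at h1
      exact h1

theorem ad_scale {u : E n} {t : ℝ} (hu : u ≠ 0) (h : Ad K ((‖u‖⁻¹) • u) t) : Ad K u (‖u‖ * t) := by
  intro x hx
  have h1 := h x hx
  have hp : ‖u‖ ≠ 0 := norm_ne_zero_iff.2 hu
  have hn1 : ‖(‖u‖⁻¹) • u‖ = 1 := by rw [norm_smul, norm_inv, norm_norm, inv_mul_cancel₀ hp]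
  rw [hn1, real_inner_smul_right, smul_smul] at h1
  have e : (t - ‖u‖⁻¹ * inner ℝ x u) / 1 ^ 2 * ‖u‖⁻¹ = (‖u‖ * t - inner ℝ x u) / ‖u‖ ^ 2 := by
    field_simp
  rwa [e] at h1

/-- The geometric part of the result. -/
theorem geo (hn : 3 ≤ n) (hK : IsCompact K) (hcv : Convex ℝ K) (hne : K.Nonempty) {U : Set (E n)} (hU : IsOpen U)
    (hcov : ∀ e : E n, e ≠ 0 → ∃ u ∈ closure (U ∩ Metric.sphere 0 1), (inner ℝ u e : ℝ) = 0)
    (hA : ∀ u ∈ U, ‖u‖ = 1 → ∃ t, Ad K u t) : ∃ (c : E n) (r : ℝ), K = Metric.closedBall c r := by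
  set C : Set (E n) := {u | u ≠ 0} ∩ (fun u : E n => (‖u‖⁻¹) • u) ⁻¹' U with hCdef
  have hC : IsOpen C := by
    refine ContinuousOn.isOpen_inter_preimage ?_ isOpen_ne hU
    intro u hu
    have : ContinuousAt (fun u : E n => (‖u‖⁻¹) • u) u :=
      (continuous_norm.continuousAt.inv₀ (norm_ne_zero_iff.2 hu)).smul continuousAt_id
    exact this.continuousWithinAt
  have hcone : ∀ u ∈ C, ∀ s : ℝ, 0 < s → s • u ∈ C := by
    rintro u ⟨hu0, hu⟩ s hs
    refine ⟨smul_ne_zero hs.ne' hu0, ?_⟩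
    show ‖s • u‖⁻¹ • s • u ∈ U
    have : ‖s • u‖⁻¹ • s • u = ‖u‖⁻¹ • u := by
      rw [norm_smul, Real.norm_eq_abs, abs_of_pos hs, smul_smul, mul_inv, mul_comm s⁻¹, mul_assoc,
        inv_mul_cancel₀ hs.ne', mul_one]
    rw [this]; exact hu
  have hAC : ∀ u ∈ C, u ≠ 0 ∧ ∃ t, Ad K u t := by
    rintro u ⟨hu0, hu⟩
    have hp : ‖u‖ ≠ 0 := norm_ne_zero_iff.2 hu0
    obtain ⟨t, ht⟩ := hA _ hu (by rw [norm_smul, norm_inv, norm_norm, inv_mul_cancel₀ hp])
    exact ⟨hu0, _, ad_scale hu0 ht⟩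
  have hUC : ∀ u ∈ U ∩ Metric.sphere (0 : E n) 1, u ∈ C := by
    rintro u ⟨hu, hu1⟩
    rw [mem_sphere_zero_iff_norm] at hu1
    refine ⟨fun h => ?_, ?_⟩
    · rw [h, norm_zero] at hu1; exact zero_ne_one hu1
    · show ‖u‖⁻¹ • u ∈ U
      rw [hu1, inv_one, one_smul]; exact hu
  obtain ⟨a, ha, -, -⟩ := exists_one hn (0 : E n) 0
  have ha0 : a ≠ 0 := fun h => by rw [h, norm_zero] at ha; exact zero_ne_one ha
  obtain ⟨u0', hu0', -⟩ := hcov a ha0
  obtain ⟨u0, hu0⟩ : (U ∩ Metric.sphere (0 : E n) 1).Nonempty := closure_nonempty_iff.1 ⟨u0', hu0'⟩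
  obtain ⟨p, D, hD, hu0D, hDC, hDA⟩ := local_lin hn hK hne hC hcone hAC (hUC u0 hu0)
  -- the property for all directions orthogonal to a point of `C`
  have hQ : ∀ μ : E n, (∃ u ∈ C, (inner ℝ u μ : ℝ) = 0) →
      ∃ x, Fc K μ x ∧ (inner ℝ μ μ : ℝ) • (x - p) = (inner ℝ (x - p) μ : ℝ) • μ := by
    rintro μ ⟨u, hu, huμ⟩
    by_cases hμ : μ = 0
    · obtain ⟨x, hx⟩ := hne
      refine ⟨x, ⟨hx, fun y _ => ?_⟩, ?_⟩
      · rw [hμ, inner_zero_right, inner_zero_right]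
      · rw [hμ, inner_zero_right, inner_zero_right, zero_smul, zero_smul]
    · have hp : 0 < ‖μ‖ := norm_pos_iff.2 hμ
      have hn1 : ‖(‖μ‖⁻¹) • μ‖ = 1 := by rw [norm_smul, norm_inv, norm_norm, inv_mul_cancel₀ hp.ne']
      obtain ⟨p', D', hD', huD', hDC', hDA'⟩ := local_lin hn hK hne hC hcone hAC hu
      have hpp := glob_lin hn hK hne hC hAC hD hDC hDA hD' hDC' hDA' hu0D huD'
      obtain ⟨x, hx, hxA⟩ := point hK hne hC hAC hn1
      have h1 := on_line hn hK hne hC hAC hD' hDC' hDA' hn1 hxA huD' (by rw [real_inner_smul_right, huμ, mul_zero])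
      rw [← hpp] at h1
      refine ⟨x, ⟨hx.1, fun y hy => ?_⟩, ?_⟩
      · have h2 := hx.2 y hy
        rw [real_inner_smul_right, real_inner_smul_right] at h2
        exact le_of_mul_le_mul_left h2 (inv_pos.2 hp)
      · have h3 : x - p = (inner ℝ (x - p) ((‖μ‖⁻¹) • μ) : ℝ) • (‖μ‖⁻¹) • μ := sub_eq_of_eq_add' h1
        rw [real_inner_smul_right, smul_smul] at h3
        conv_lhs => rw [h3]
        rw [smul_smul, real_inner_self_eq_norm_sq]
        congr 1
        field_simp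
  refine ⟨p, ball_of hn hK hcv p fun ν hν => ?_⟩
  have hν0 : ν ≠ 0 := fun h => by rw [h, norm_zero] at hν; exact zero_ne_one hν
  obtain ⟨u, hu, huν⟩ := hcov ν hν0
  obtain ⟨v, hv, hvt⟩ := mem_closure_iff_seq_limit.1 hu
  have hseq : ∀ k, ∃ x, Fc K (ν - (inner ℝ ν (v k) : ℝ) • v k) x ∧
      (inner ℝ (ν - (inner ℝ ν (v k) : ℝ) • v k) (ν - (inner ℝ ν (v k) : ℝ) • v k) : ℝ) • (x - p) =
        (inner ℝ (x - p) (ν - (inner ℝ ν (v k) : ℝ) • v k) : ℝ) • (ν - (inner ℝ ν (v k) : ℝ) • v k) := by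
    intro k
    refine hQ _ ⟨v k, hUC _ (hv k), ?_⟩
    have h1 : ‖v k‖ = 1 := mem_sphere_zero_iff_norm.1 (hv k).2
    rw [inner_sub_right, real_inner_smul_right, real_inner_self_eq_norm_sq, h1, real_inner_comm]
    ring
  choose x hx hxe using hseq
  obtain ⟨x0, hx0, φ, hφ, hlim⟩ := hK.tendsto_subseq (fun k => (hx k).1)
  have hvt' : Tendsto (v ∘ φ) atTop (𝓝 u) := hvt.comp hφ.tendsto_atTop
  have hμt : Tendsto (fun k => ν - (inner ℝ ν (v (φ k)) : ℝ) • v (φ k)) atTop (𝓝 ν) := by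
    have h2 : Tendsto (fun k => ν - (inner ℝ ν (v (φ k)) : ℝ) • v (φ k)) atTop (𝓝 (ν - (inner ℝ ν u : ℝ) • u)) :=
      tendsto_const_nhds.sub ((tendsto_const_nhds.inner hvt').smul hvt')
    rwa [real_inner_comm, huν, zero_smul, sub_zero] at h2
  have hF : Fc K ν x0 := fc_closed hK.isClosed hμt hlim fun k => hx (φ k)
  have hlim' : Tendsto (fun k => x (φ k) - p) atTop (𝓝 (x0 - p)) := hlim.sub tendsto_const_nhds
  have hi1 : Tendsto (fun k => (inner ℝ (ν - (inner ℝ ν (v (φ k)) : ℝ) • v (φ k))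
      (ν - (inner ℝ ν (v (φ k)) : ℝ) • v (φ k)) : ℝ)) atTop (𝓝 (inner ℝ ν ν)) := hμt.inner hμt
  have hi2 : Tendsto (fun k => (inner ℝ (x (φ k) - p) (ν - (inner ℝ ν (v (φ k)) : ℝ) • v (φ k)) : ℝ)) atTop
      (𝓝 (inner ℝ (x0 - p) ν)) := hlim'.inner hμt
  have hl := hi1.smul hlim'
  have hr := hi2.smul hμt
  have heq : (inner ℝ ν ν : ℝ) • (x0 - p) = (inner ℝ (x0 - p) ν : ℝ) • ν :=
    tendsto_nhds_unique hl (hr.congr fun k => (hxe (φ k)).symm)
  rw [real_inner_self_eq_norm_sq, hν, one_pow, one_smul] at heq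
  refine ⟨(inner ℝ (x0 - p) ν : ℝ), ?_⟩
  rw [← heq, add_sub_cancel]
  exact hF

end Pool.Helper8.LE
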