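import Pool.Agent.Helper8.LE.Basic
import Pool.Agent.Helper8.TB.M_Chart
import Pool.Agent.Helper32.TB.M_Frame
import Pool.Agent.Helper6.TB.M_Geo

/-!
# Local equality (MP_26ac92_gt): a section as large as the shadow gives an admissible level
-/

set_option autoImplicit false

namespace Pool.Helper8.LE

open MeasureTheory Filter Topology Pool.Helper8.TB

theorem meas {m : ℕ} (hm : 1 ≤ m) {K : Set (E (m + 1))} (hK : IsCompact K) (hcv : Convex ℝ K)
    (hint : (interior K).Nonempty) {u : E (m + 1)} (hu : ‖u‖ = 1)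
    (h : (⨆ t : ℝ, Measure.hausdorffMeasure (m : ℝ) (K ∩ {x : E (m + 1) | (inner ℝ x u : ℝ) = t})) =
      Measure.hausdorffMeasure (m : ℝ) ((fun x : E (m + 1) => x - (inner ℝ x u : ℝ) • u) '' K)) :
    ∃ t, Ad K u t := by
  obtain ⟨J, hF⟩ := Pool.Agent.Helper32.TB.hFrame m u hu
  obtain ⟨hP, hJJ, hJt, h0, -, -⟩ := hChart m J u hF
  have hfr : Module.finrank ℝ (W m) = m := by simp
  have hHaar : (Measure.hausdorffMeasure (m : ℝ) : Measure (W m)).IsAddHaarMeasure := by
    have h := MeasureTheory.isAddHaarMeasure_hausdorffMeasure (E := W m)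
    rw [hfr] at h
    exact h
  set μ : Measure (W m) := Measure.hausdorffMeasure (m : ℝ) with hμ
  set P : Set (W m) := Jt J '' K with hPdef
  set S : ℝ → Set (E (m + 1)) := fun t => K ∩ {x : E (m + 1) | (inner ℝ x u : ℝ) = t} with hS
  set Q : ℝ → Set (W m) := fun t => Jt J '' S t with hQ
  have hPc : IsCompact P := hK.image (Jt J).continuous
  have hPcv : Convex ℝ P := hcv.linear_image (Jt J).toLinearMap
  have hsurj : Function.Surjective (Jt J) := fun y => ⟨J y, hJJ y⟩
  have hPint : (interior P).Nonempty := by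
    have ho : IsOpen (Jt J '' interior K) := (Jt J).isOpenMap hsurj _ isOpen_interior
    have hsub : Jt J '' interior K ⊆ interior P := interior_maximal (Set.image_mono interior_subset) ho
    exact (hint.image _).mono hsub
  have hSc : ∀ t, IsCompact (S t) := fun t =>
    hK.inter_right (isClosed_eq (by fun_prop) continuous_const)
  have hQc : ∀ t, IsCompact (Q t) := fun t => (hSc t).image (Jt J).continuous
  have hQP : ∀ t, Q t ⊆ P := fun t => Set.image_mono Set.inter_subset_left
  -- measures of sections and of the shadow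
  have hPm : Measure.hausdorffMeasure (m : ℝ) ((fun x : E (m + 1) => x - (inner ℝ x u : ℝ) • u) '' K) = μ P :=
    (Pool.Agent.Helper6.TB.hGeo m J u hm hF K).1
  have hQm : ∀ t, Measure.hausdorffMeasure (m : ℝ) (S t) ≤ μ (Q t) := by
    intro t
    have h1 := (Pool.Agent.Helper6.TB.hGeo m J u hm hF (S t)).1
    have h2 := (Pool.Agent.Helper6.TB.hGeo m J u hm hF (S t)).2.1 t
    have h3 : S t ∩ {x : E (m + 1) | (inner ℝ x u : ℝ) = t} = S t :=
      Set.inter_eq_left.2 Set.inter_subset_right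
    rw [h3, h1] at h2
    exact h2
  rw [hPm] at h
  have hPtop : μ P ≠ ⊤ := hPc.measure_lt_top.ne
  have hPpos : μ P ≠ 0 := by
    have h1 : 0 < μ (interior P) := isOpen_interior.measure_pos μ hPint
    exact (h1.trans_le (measure_mono interior_subset)).ne'
  -- a maximizing sequence of levels
  have hseq : ∀ k : ℕ, ∃ t : ℝ, μ P - ((k : ENNReal) + 1)⁻¹ < μ (Q t) := by
    intro k
    have h1 : μ P - ((k : ENNReal) + 1)⁻¹ < ⨆ t : ℝ, Measure.hausdorffMeasure (m : ℝ) (S t) := by
      rw [h]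
      refine ENNReal.sub_lt_self hPtop hPpos ?_
      rw [ENNReal.inv_ne_zero]
      exact ENNReal.add_ne_top.2 ⟨ENNReal.natCast_ne_top k, ENNReal.one_ne_top⟩
    obtain ⟨t, ht⟩ := lt_iSup_iff.1 h1
    exact ⟨t, ht.trans_le (hQm t)⟩
  choose t ht using hseq
  have hmemT : ∀ k, t k ∈ (fun x : E (m + 1) => (inner ℝ x u : ℝ)) '' K := by
    intro k
    have h1 : (Q (t k)).Nonempty := by
      rw [Set.nonempty_iff_ne_empty]
      intro he
      have := ht k
      rw [he, measure_empty] at this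
      exact not_lt_bot this
    obtain ⟨-, x, hx, -⟩ := h1
    exact ⟨x, hx.1, hx.2⟩
  have hTc : IsCompact ((fun x : E (m + 1) => (inner ℝ x u : ℝ)) '' K) := hK.image (by fun_prop)
  obtain ⟨t0, -, φ, hφ, hlim⟩ := hTc.tendsto_subseq hmemT
  refine ⟨t0, ?_⟩
  -- the difference is a null set
  have hdiff : ∀ k, μ (P \ Q (t k)) ≤ ((k : ENNReal) + 1)⁻¹ := by
    intro k
    rw [measure_sdiff (hQP _) (hQc _).measurableSet.nullMeasurableSet (hQc _).measure_lt_top.ne]
    exact (tsub_le_tsub_left (ht k).le _).trans tsub_tsub_le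
  have hcl : ∀ y : W m, (∃ᶠ k in atTop, y ∈ Q (t (φ k))) → y ∈ Q t0 := by
    intro y hy
    obtain ⟨ψ, hψ, hyψ⟩ := extraction_of_frequently_atTop hy
    -- the point with shadow `y` at level `t` is `J y + t u`
    have hpt : ∀ s : ℝ, y ∈ Q s ↔ J y + s • u ∈ K := by
      intro s
      constructor
      · rintro ⟨x, ⟨hxK, hxs⟩, hxy⟩
        have h1 := hP x
        rw [hxy] at h1
        have hxs' : (inner ℝ x u : ℝ) = s := hxs
        rw [h1, hxs']
        simpa using hxK
      · intro hk
        refine ⟨J y + s • u, ⟨hk, ?_⟩, ?_⟩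
        · show (inner ℝ (J y + s • u) u : ℝ) = s
          rw [inner_add_left, hF.hJ y, real_inner_smul_left, real_inner_self_eq_norm_sq, hu]
          ring
        · rw [map_add, map_smul, hJJ, h0, smul_zero, add_zero]
    rw [hpt]
    have hl : Tendsto (fun k => J y + t (φ (ψ k)) • u) atTop (𝓝 (J y + t0 • u)) := by
      have h1 : Tendsto (fun k => t (φ (ψ k))) atTop (𝓝 t0) := hlim.comp hψ.tendsto_atTop
      exact tendsto_const_nhds.add (h1.smul tendsto_const_nhds)
    exact hK.isClosed.mem_of_tendsto hl (Eventually.of_forall fun k => (hpt _).1 (hyψ k))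
  have hnull : μ (P \ Q t0) = 0 := by
    have hsub : P \ Q t0 ⊆ ⋃ N : ℕ, ⋂ k : ℕ, (P \ Q (t (φ (N + k)))) := by
      rintro y ⟨hyP, hyQ⟩
      have h1 : ¬ ∃ᶠ k in atTop, y ∈ Q (t (φ k)) := fun h => hyQ (hcl y h)
      rw [not_frequently, eventually_atTop] at h1
      obtain ⟨N, hN⟩ := h1
      exact Set.mem_iUnion.2 ⟨N, Set.mem_iInter.2 fun k => ⟨hyP, hN (N + k) (by omega)⟩⟩
    refine measure_mono_null hsub (measure_iUnion_null fun N => ?_)
    by_contra hne
    have hpos : 0 < μ (⋂ k : ℕ, (P \ Q (t (φ (N + k))))) := pos_iff_ne_zero.2 hne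
    obtain ⟨j, hj⟩ := ENNReal.exists_inv_nat_lt hne
    have h2 : μ (⋂ k : ℕ, (P \ Q (t (φ (N + k))))) ≤ μ (P \ Q (t (φ (N + j)))) :=
      measure_mono (Set.iInter_subset _ j)
    have h3 : ((φ (N + j) : ENNReal) + 1)⁻¹ ≤ ((j : ENNReal))⁻¹ := by
      refine ENNReal.inv_le_inv.2 ?_
      have h4 : j ≤ φ (N + j) := (Nat.le_add_left j N).trans (hφ.id_le _)
      have h5 : (j : ENNReal) ≤ (φ (N + j) : ENNReal) := by exact_mod_cast h4
      exact h5.trans le_self_add
    exact absurd (h2.trans ((hdiff _).trans h3)) (not_le.2 hj)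
  -- hence the shadow is contained in the section
  have hsub : P ⊆ Q t0 := by
    have h1 : interior P \ Q t0 = ∅ := by
      have ho : IsOpen (interior P \ Q t0) := isOpen_interior.sdiff (hQc t0).isClosed
      by_contra hne
      have hpos := ho.measure_pos μ (Set.nonempty_iff_ne_empty.2 hne)
      exact hpos.ne' (measure_mono_null (Set.sdiff_subset_sdiff_left interior_subset) hnull)
    have h2 : interior P ⊆ Q t0 := Set.sdiff_eq_empty.1 h1
    have h3 : closure (interior P) = closure P := hPcv.closure_interior_eq_closure_of_nonempty_interior hPint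
    calc P ⊆ closure P := subset_closure
      _ = closure (interior P) := h3.symm
      _ ⊆ Q t0 := closure_minimal h2 (hQc t0).isClosed
  intro x hx
  obtain ⟨x', ⟨hx'K, hx't⟩, hx'x⟩ := hsub ⟨x, hx, rfl⟩
  have h1 := hP x
  have h2 := hP x'
  rw [hx'x, h1] at h2
  have hx't' : (inner ℝ x' u : ℝ) = t0 := hx't
  rw [hx't'] at h2
  have h3 : x + ((t0 - inner ℝ x u) / ‖u‖ ^ 2) • u = x' := by
    rw [hu, one_pow, div_one]
    have : x' = (x - (inner ℝ x u : ℝ) • u) + t0 • u := by rw [h2]; abel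
    rw [this]; module
  rw [h3]; exact hx'K

end Pool.Helper8.LE
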