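import Mathlib

/-!
# Local equality of sections and shadows (MP_26ac92_gt): faces and admissible levels
-/

set_option autoImplicit false

namespace Pool.Helper8.LE

open MeasureTheory Filter Topology

/-- Euclidean space. -/
abbrev E (n : ℕ) := EuclideanSpace ℝ (Fin n)

/-- The level `t` is admissible for `u`: the translation of each point of `K` in direction `u` to the level `t` stays in `K`. -/
def Ad {n : ℕ} (K : Set (E n)) (u : E n) (t : ℝ) : Prop :=
  ∀ x ∈ K, x + ((t - inner ℝ x u) / ‖u‖ ^ 2) • u ∈ K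

/-- `x` is a point of the face of `K` with outer normal `ν`. -/
def Fc {n : ℕ} (K : Set (E n)) (ν x : E n) : Prop := x ∈ K ∧ ∀ y ∈ K, (inner ℝ y ν : ℝ) ≤ inner ℝ x ν

variable {n : ℕ} {K : Set (E n)}

theorem lev_inner {u x : E n} {t : ℝ} (hu : u ≠ 0) :
    (inner ℝ (x + ((t - inner ℝ x u) / ‖u‖ ^ 2) • u) u : ℝ) = t := by
  have h : ‖u‖ ^ 2 ≠ 0 := pow_ne_zero 2 (norm_ne_zero_iff.2 hu)
  rw [inner_add_left, real_inner_smul_left, real_inner_self_eq_norm_sq, div_mul_cancel₀ _ h]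
  ring

theorem sgn {u ν x : E n} {t : ℝ} (hu : u ≠ 0) (hA : Ad K u t) (hF : Fc K ν x) :
    0 ≤ (inner ℝ x u - t) * inner ℝ u ν := by
  have h := hF.2 _ (hA x hF.1)
  have hp : 0 < ‖u‖ ^ 2 := pow_pos (norm_pos_iff.2 hu) 2
  rw [inner_add_left, real_inner_smul_left] at h
  have h2 : (t - inner ℝ x u) / ‖u‖ ^ 2 * inner ℝ u ν ≤ 0 := by linarith
  have h3 : (t - inner ℝ x u) * inner ℝ u ν ≤ 0 := by
    have h4 := mul_nonpos_of_nonpos_of_nonneg h2 hp.le
    have h5 : (t - inner ℝ x u) / ‖u‖ ^ 2 * inner ℝ u ν * ‖u‖ ^ 2 = (t - inner ℝ x u) * inner ℝ u ν := by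
      field_simp
    linarith
  nlinarith

theorem orth {u ν x : E n} {t : ℝ} (huν : (inner ℝ u ν : ℝ) = 0) (hA : Ad K u t) (hF : Fc K ν x) :
    Fc K ν (x + ((t - inner ℝ x u) / ‖u‖ ^ 2) • u) := by
  refine ⟨hA x hF.1, fun y hy => ?_⟩
  rw [inner_add_left, real_inner_smul_left, huν, mul_zero, add_zero]
  exact hF.2 y hy

/-- The directions with exactly one face point. -/
def DD (K : Set (E n)) : Set (E n) := {ν | ∃ x, Fc K ν x ∧ ∀ y, Fc K ν y → y = x}

theorem level_eq {u ν x : E n} {t : ℝ} (hu : u ≠ 0) (huν : (inner ℝ u ν : ℝ) = 0) (hA : Ad K u t)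
    (hF : Fc K ν x) (hun : ∀ y, Fc K ν y → y = x) : (inner ℝ x u : ℝ) = t := by
  have h := hun _ (orth huν hA hF)
  have h2 := lev_inner (x := x) (t := t) hu
  rw [h] at h2
  exact h2

theorem ad_closed (hK : IsClosed K) {u : E n} (hu : u ≠ 0) {t : ℝ} {v : ℕ → E n} {s : ℕ → ℝ}
    (hv : Tendsto v atTop (𝓝 u)) (hs : Tendsto s atTop (𝓝 t)) (hA : ∀ᶠ k in atTop, Ad K (v k) (s k)) :
    Ad K u t := by
  intro x hx
  have h1 : Tendsto (fun k => x + ((s k - inner ℝ x (v k)) / ‖v k‖ ^ 2) • v k) atTop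
      (𝓝 (x + ((t - inner ℝ x u) / ‖u‖ ^ 2) • u)) := by
    refine tendsto_const_nhds.add (Tendsto.smul (Tendsto.div (hs.sub (tendsto_const_nhds.inner hv))
      (hv.norm.pow 2) (pow_ne_zero 2 (norm_ne_zero_iff.2 hu))) hv)
  exact hK.mem_of_tendsto h1 (hA.mono fun k hk => hk x hx)

theorem fc_closed (hK : IsClosed K) {ν x : E n} {v : ℕ → E n} {y : ℕ → E n}
    (hv : Tendsto v atTop (𝓝 ν)) (hy : Tendsto y atTop (𝓝 x)) (hA : ∀ k, Fc K (v k) (y k)) :
    Fc K ν x := by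
  refine ⟨hK.mem_of_tendsto hy (Eventually.of_forall fun k => (hA k).1), fun z hz => ?_⟩
  exact le_of_tendsto_of_tendsto (tendsto_const_nhds.inner hv) (hy.inner hv)
    (Eventually.of_forall fun k => (hA k).2 z hz)

/-- Unique face points are dense. -/
theorem dense_DD (hK : IsCompact K) (hne : K.Nonempty) : Dense (DD K) := by
  -- the support function
  obtain ⟨M, hM⟩ := hK.isBounded.exists_norm_le
  have hex : ∀ ν : E n, ∃ x, Fc K ν x := by
    intro ν
    obtain ⟨x, hx, hmax⟩ := hK.exists_isMaxOn hne (f := fun y => (inner ℝ y ν : ℝ))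
      (by fun_prop)
    exact ⟨x, hx, fun y hy => hmax hy⟩
  choose X hX using hex
  let h : E n → ℝ := fun ν => inner ℝ (X ν) ν
  have hM0 : 0 ≤ M := by
    obtain ⟨x, hx⟩ := hne
    exact (norm_nonneg x).trans (hM x hx)
  have hlip : LipschitzWith (Real.toNNReal M) h := by
    refine LipschitzWith.of_le_add_mul _ fun a b => ?_
    have h1 : h a ≤ inner ℝ (X a) b + inner ℝ (X a) (a - b) := by
      rw [inner_sub_right]; simp [h]
    have h2 : (inner ℝ (X a) b : ℝ) ≤ h b := (hX b).2 _ (hX a).1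
    have h3 : (inner ℝ (X a) (a - b) : ℝ) ≤ ‖X a‖ * ‖a - b‖ := real_inner_le_norm _ _
    have h4 : ‖X a‖ * ‖a - b‖ ≤ M * dist a b := by
      rw [dist_eq_norm]
      exact mul_le_mul_of_nonneg_right (hM _ (hX a).1) (norm_nonneg _)
    rw [Real.coe_toNNReal M hM0]
    linarith
  have hae : ∀ᵐ ν ∂(volume : Measure (E n)), DifferentiableAt ℝ h ν := hlip.ae_differentiableAt
  refine (MeasureTheory.Measure.dense_of_ae hae).mono fun ν hν => ?_
  have hkey : ∀ y, Fc K ν y → ∀ w, (inner ℝ y w : ℝ) = fderiv ℝ h ν w := by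
    intro y hy w
    have hmin : IsLocalMin (fun z => h z - inner ℝ y z) ν := by
      refine Filter.Eventually.of_forall fun z => ?_
      have e1 : (inner ℝ y z : ℝ) ≤ h z := (hX z).2 _ hy.1
      have e2 : h ν = inner ℝ y ν := le_antisymm (hy.2 _ (hX ν).1) ((hX ν).2 _ hy.1)
      show h ν - inner ℝ y ν ≤ h z - inner ℝ y z
      rw [e2]; linarith
    have hd : HasFDerivAt (fun z => h z - inner ℝ y z) (fderiv ℝ h ν - (innerSL ℝ y)) ν :=
      hν.hasFDerivAt.sub (innerSL ℝ y).hasFDerivAt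
    have h0 := hmin.hasFDerivAt_eq_zero hd
    have h5 := congrArg (fun L => L w) h0
    simp only [sub_apply, innerSL_apply_apply, zero_apply] at h5
    linarith
  refine ⟨X ν, hX ν, fun y hy => ?_⟩
  refine ext_inner_right ℝ fun w => ?_
  rw [hkey y hy w, hkey _ (hX ν) w]

end Pool.Helper8.LE
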