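import Pool.Agent.Helper8.LE.Uniq

/-!
# Local equality (MP_26ac92_gt): the levels are given by one point
-/

set_option autoImplicit false

namespace Pool.Helper8.LE

open MeasureTheory Filter Topology

variable {n : ℕ} {K : Set (E n)}

/-- A vector is a combination of two orthonormal vectors if it is orthogonal to everything orthogonal to them. -/
theorem decomp {z a b : E n} (ha : ‖a‖ = 1) (hb : ‖b‖ = 1) (hab : (inner ℝ a b : ℝ) = 0)
    (h : ∀ v : E n, (inner ℝ v a : ℝ) = 0 → (inner ℝ v b : ℝ) = 0 → (inner ℝ z v : ℝ) = 0) :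
    z = (inner ℝ z a : ℝ) • a + (inner ℝ z b : ℝ) • b := by
  set v : E n := z - ((inner ℝ z a : ℝ) • a + (inner ℝ z b : ℝ) • b) with hv
  have hba : (inner ℝ b a : ℝ) = 0 := by rw [real_inner_comm]; exact hab
  have haa : (inner ℝ a a : ℝ) = 1 := by rw [real_inner_self_eq_norm_sq, ha]; norm_num
  have hbb : (inner ℝ b b : ℝ) = 1 := by rw [real_inner_self_eq_norm_sq, hb]; norm_num
  have h1 : (inner ℝ v a : ℝ) = 0 := by
    rw [hv, inner_sub_left, inner_add_left, real_inner_smul_left, real_inner_smul_left, haa, hba]; ring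
  have h2 : (inner ℝ v b : ℝ) = 0 := by
    rw [hv, inner_sub_left, inner_add_left, real_inner_smul_left, real_inner_smul_left, hab, hbb]; ring
  have h3 := h v h1 h2
  have h4 : (inner ℝ v v : ℝ) = 0 := by
    have h5 : (inner ℝ v v : ℝ) = inner ℝ z v - ((inner ℝ z a : ℝ) * inner ℝ a v + (inner ℝ z b : ℝ) * inner ℝ b v) := by
      conv_lhs => rw [hv]
      rw [inner_sub_left, inner_add_left, real_inner_smul_left, real_inner_smul_left]
    rw [h5, h3, real_inner_comm v a, real_inner_comm v b, h1, h2]; ring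
  have h5 : v = 0 := inner_self_eq_zero.1 h4
  exact sub_eq_zero.1 h5

/-- The same for one unit vector. -/
theorem decomp1 {z a : E n} (ha : ‖a‖ = 1) (h : ∀ v : E n, (inner ℝ v a : ℝ) = 0 → (inner ℝ z v : ℝ) = 0) :
    z = (inner ℝ z a : ℝ) • a := by
  set v : E n := z - (inner ℝ z a : ℝ) • a with hv
  have haa : (inner ℝ a a : ℝ) = 1 := by rw [real_inner_self_eq_norm_sq, ha]; norm_num
  have h1 : (inner ℝ v a : ℝ) = 0 := by
    rw [hv, inner_sub_left, real_inner_smul_left, haa]; ring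
  have h3 := h v h1
  have h4 : (inner ℝ v v : ℝ) = 0 := by
    have h5 : (inner ℝ v v : ℝ) = inner ℝ z v - (inner ℝ z a : ℝ) * inner ℝ a v := by
      conv_lhs => rw [hv]
      rw [inner_sub_left, real_inner_smul_left]
    rw [h5, h3, real_inner_comm v a, h1]; ring
  have h5 : v = 0 := inner_self_eq_zero.1 h4
  exact sub_eq_zero.1 h5

/-- A linear form that vanishes on the intersection of a linear subspace (given by `P`) and an open set that meets it,
vanishes on the subspace. -/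
theorem perturb {C : Set (E n)} (hC : IsOpen C) {u z : E n} (hu : u ∈ C) (hzu : (inner ℝ z u : ℝ) = 0) {v : E n}
    (h : ∀ s : ℝ, u + s • v ∈ C → (inner ℝ z (u + s • v) : ℝ) = 0) : (inner ℝ z v : ℝ) = 0 := by
  have h1 : Tendsto (fun k : ℕ => u + (1 / ((k : ℝ) + 1)) • v) atTop (𝓝 u) := by
    have h3 : Tendsto (fun k : ℕ => u + (1 / ((k : ℝ) + 1)) • v) atTop (𝓝 (u + (0 : ℝ) • v)) :=
      tendsto_const_nhds.add (tendsto_one_div_add_atTop_nhds_zero_nat.smul tendsto_const_nhds)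
    simpa using h3
  obtain ⟨k, hk⟩ := (h1.eventually (hC.mem_nhds hu)).exists
  have h2 := h _ hk
  rw [inner_add_right, hzu, zero_add, real_inner_smul_right] at h2
  have h3 : (1 / ((k : ℝ) + 1)) ≠ 0 := by positivity
  exact (mul_eq_zero.1 h2).resolve_left h3

/-- Local linearity of the level. -/
theorem local_lin (hn : 3 ≤ n) (hK : IsCompact K) (hne : K.Nonempty) {C : Set (E n)} (hC : IsOpen C)
    (hcone : ∀ u ∈ C, ∀ s : ℝ, 0 < s → s • u ∈ C)
    (hA : ∀ u ∈ C, u ≠ 0 ∧ ∃ t, Ad K u t) {u0 : E n} (hu0 : u0 ∈ C) :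
    ∃ p : E n, ∃ D : Set (E n), IsOpen D ∧ u0 ∈ D ∧ D ⊆ C ∧ ∀ u ∈ D, Ad K u (inner ℝ p u) := by
  obtain ⟨a, b, ha, hb, hab, hua, hub⟩ := exists_two hn u0
  obtain ⟨x, hx, hxA⟩ := point hK hne hC hA ha
  obtain ⟨y, hy, hyA⟩ := point hK hne hC hA hb
  have haa : (inner ℝ a a : ℝ) = 1 := by rw [real_inner_self_eq_norm_sq, ha]; norm_num
  have hdec : x - y = (inner ℝ (x - y) a : ℝ) • a + (inner ℝ (x - y) b : ℝ) • b := by
    refine decomp ha hb hab fun v hva hvb => ?_
    have hzz : ∀ w ∈ C, (inner ℝ w a : ℝ) = 0 → (inner ℝ w b : ℝ) = 0 → (inner ℝ (x - y) w : ℝ) = 0 := by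
      intro w hw hwa hwb
      have := uniq hn hK hne hC hA hw (hxA w hw hwa) (hyA w hw hwb)
      rw [inner_sub_left]; linarith
    refine perturb hC hu0 (hzz u0 hu0 hua hub) fun s hs => hzz _ hs ?_ ?_
    · rw [inner_add_left, real_inner_smul_left, hua, hva]; ring
    · rw [inner_add_left, real_inner_smul_left, hub, hvb]; ring
  set α : ℝ := inner ℝ (x - y) a
  set β : ℝ := inner ℝ (x - y) b
  set p : E n := x - α • a with hp
  have hp2 : p = y + β • b := by
    have : x = y + (α • a + β • b) := by rw [← hdec]; abel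
    rw [hp, this]; abel
  -- the two parts of `u`
  let w1 : E n → E n := fun u => (1 / 2 : ℝ) • u0 + ((u - u0) - (inner ℝ (u - u0) a : ℝ) • a)
  let w2 : E n → E n := fun u => (1 / 2 : ℝ) • u0 + (inner ℝ (u - u0) a : ℝ) • a
  have hc1 : Continuous w1 := by
    show Continuous (fun u => (1 / 2 : ℝ) • u0 + ((u - u0) - (inner ℝ (u - u0) a : ℝ) • a))
    fun_prop
  have hc2 : Continuous w2 := by
    show Continuous (fun u => (1 / 2 : ℝ) • u0 + (inner ℝ (u - u0) a : ℝ) • a)
    fun_prop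
  have h10 : w1 u0 = (1 / 2 : ℝ) • u0 := by simp [w1]
  have h20 : w2 u0 = (1 / 2 : ℝ) • u0 := by simp [w2]
  refine ⟨p, C ∩ (w1 ⁻¹' C ∩ w2 ⁻¹' C), hC.inter ((hC.preimage hc1).inter (hC.preimage hc2)), ⟨hu0, ?_, ?_⟩,
    Set.inter_subset_left, ?_⟩
  · show w1 u0 ∈ C
    rw [h10]; exact hcone u0 hu0 _ (by norm_num)
  · show w2 u0 ∈ C
    rw [h20]; exact hcone u0 hu0 _ (by norm_num)
  · rintro u ⟨hu, hu1, hu2⟩
    have e1 : (inner ℝ (w1 u) a : ℝ) = 0 := by
      show (inner ℝ ((1 / 2 : ℝ) • u0 + ((u - u0) - (inner ℝ (u - u0) a : ℝ) • a)) a : ℝ) = 0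
      rw [inner_add_left, inner_sub_left _ _ a, real_inner_smul_left, real_inner_smul_left, hua, haa]; ring
    have e2 : (inner ℝ (w2 u) b : ℝ) = 0 := by
      show (inner ℝ ((1 / 2 : ℝ) • u0 + (inner ℝ (u - u0) a : ℝ) • a) b : ℝ) = 0
      rw [inner_add_left, real_inner_smul_left, real_inner_smul_left, hub, hab]; ring
    have e3 : w1 u + w2 u = u := by
      show ((1 / 2 : ℝ) • u0 + ((u - u0) - (inner ℝ (u - u0) a : ℝ) • a)) +
        ((1 / 2 : ℝ) • u0 + (inner ℝ (u - u0) a : ℝ) • a) = u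
      module
    have A1 : Ad K (w1 u) (inner ℝ p (w1 u)) := by
      have h := hxA (w1 u) hu1 e1
      have h' : (inner ℝ p (w1 u) : ℝ) = inner ℝ x (w1 u) := by
        rw [hp, inner_sub_left, real_inner_smul_left, real_inner_comm (w1 u) a, e1]; ring
      rwa [h']
    have A2 : Ad K (w2 u) (inner ℝ p (w2 u)) := by
      have h := hyA (w2 u) hu2 e2
      have h' : (inner ℝ p (w2 u) : ℝ) = inner ℝ y (w2 u) := by
        rw [hp2, inner_add_left, real_inner_smul_left, real_inner_comm (w2 u) b, e2]; ring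
      rwa [h']
    obtain ⟨ν, hν, hν1, hν2⟩ := exists_one hn (w1 u) (w2 u)
    obtain ⟨z, hz, hzA⟩ := point hK hne hC hA hν
    have B1 := uniq hn hK hne hC hA hu1 A1 (hzA _ hu1 hν1)
    have B2 := uniq hn hK hne hC hA hu2 A2 (hzA _ hu2 hν2)
    have B3 := hzA u hu (by rw [← e3, inner_add_left, hν1, hν2, add_zero])
    have B4 : (inner ℝ p u : ℝ) = inner ℝ z u := by
      have c1 : (inner ℝ p u : ℝ) = inner ℝ p (w1 u) + inner ℝ p (w2 u) := by rw [← inner_add_right, e3]
      have c2 : (inner ℝ z u : ℝ) = inner ℝ z (w1 u) + inner ℝ z (w2 u) := by rw [← inner_add_right, e3]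
      rw [c1, c2, B1, B2]
    rw [B4]; exact B3

/-- The face point in a direction orthogonal to a point of the local chart. -/
theorem on_line (hn : 3 ≤ n) (hK : IsCompact K) (hne : K.Nonempty) {C : Set (E n)} (hC : IsOpen C)
    (hA : ∀ u ∈ C, u ≠ 0 ∧ ∃ t, Ad K u t) {p : E n} {D : Set (E n)} (hD : IsOpen D) (hDC : D ⊆ C)
    (hDA : ∀ u ∈ D, Ad K u (inner ℝ p u)) {ν x u : E n} (hν : ‖ν‖ = 1)
    (hxA : ∀ u ∈ C, (inner ℝ u ν : ℝ) = 0 → Ad K u (inner ℝ x u)) (hu : u ∈ D) (huν : (inner ℝ u ν : ℝ) = 0) :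
    x = p + (inner ℝ (x - p) ν : ℝ) • ν := by
  have h := decomp1 (z := x - p) hν fun v hv => by
    have hzz : ∀ w ∈ D, (inner ℝ w ν : ℝ) = 0 → (inner ℝ (x - p) w : ℝ) = 0 := by
      intro w hw hwν
      have := uniq hn hK hne hC hA (hDC hw) (hxA w (hDC hw) hwν) (hDA w hw)
      rw [inner_sub_left]; linarith
    refine perturb hD hu (hzz u hu huν) fun s hs => hzz _ hs ?_
    rw [inner_add_left, real_inner_smul_left, huν, hv]; ring
  rw [← h]; abel

/-- The local points agree. -/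
theorem glob_lin (hn : 3 ≤ n) (hK : IsCompact K) (hne : K.Nonempty) {C : Set (E n)} (hC : IsOpen C)
    (hA : ∀ u ∈ C, u ≠ 0 ∧ ∃ t, Ad K u t) {p p' : E n} {D D' : Set (E n)} (hD : IsOpen D) (hDC : D ⊆ C)
    (hDA : ∀ u ∈ D, Ad K u (inner ℝ p u)) (hD' : IsOpen D') (hDC' : D' ⊆ C)
    (hDA' : ∀ u ∈ D', Ad K u (inner ℝ p' u)) {u u' : E n} (hu : u ∈ D) (hu' : u' ∈ D') : p = p' := by
  obtain ⟨ν, hν, huν, hu'ν⟩ := exists_one hn u u'
  -- for all unit vectors `μ` near `ν` the difference is a multiple of `μ`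
  have key : ∀ᶠ μ in 𝓝 ν, ‖μ‖ = 1 → ∃ s : ℝ, p - p' = s • μ := by
    have c1 : Tendsto (fun μ : E n => u - (inner ℝ u μ : ℝ) • μ) (𝓝 ν) (𝓝 u) := by
      have hc : Continuous (fun μ : E n => u - (inner ℝ u μ : ℝ) • μ) := by fun_prop
      have h := hc.tendsto ν
      simp only [huν, zero_smul, sub_zero] at h
      exact h
    have c2 : Tendsto (fun μ : E n => u' - (inner ℝ u' μ : ℝ) • μ) (𝓝 ν) (𝓝 u') := by
      have hc : Continuous (fun μ : E n => u' - (inner ℝ u' μ : ℝ) • μ) := by fun_prop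
      have h := hc.tendsto ν
      simp only [hu'ν, zero_smul, sub_zero] at h
      exact h
    filter_upwards [c1.eventually (hD.mem_nhds hu), c2.eventually (hD'.mem_nhds hu')] with μ h1 h2 hμ
    have hμμ : (inner ℝ μ μ : ℝ) = 1 := by rw [real_inner_self_eq_norm_sq, hμ]; norm_num
    obtain ⟨x, hx, hxA⟩ := point hK hne hC hA hμ
    have e1 := on_line hn hK hne hC hA hD hDC hDA hμ hxA h1
      (by rw [inner_sub_left, real_inner_smul_left, hμμ]; ring)
    have e2 := on_line hn hK hne hC hA hD' hDC' hDA' hμ hxA h2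
      (by rw [inner_sub_left, real_inner_smul_left, hμμ]; ring)
    refine ⟨(inner ℝ (x - p') μ : ℝ) - inner ℝ (x - p) μ, ?_⟩
    rw [sub_smul]
    have e3 : p = x - (inner ℝ (x - p) μ : ℝ) • μ := eq_sub_of_add_eq e1.symm
    have e4 : p' = x - (inner ℝ (x - p') μ : ℝ) • μ := eq_sub_of_add_eq e2.symm
    conv_lhs => rw [e3, e4]
    abel
  -- a second unit vector
  obtain ⟨w, hw, hνw, -⟩ := exists_one hn ν 0
  let m : ℝ → E n := fun θ => Real.cos θ • ν + Real.sin θ • w
  have hm : Tendsto m (𝓝 0) (𝓝 ν) := by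
    have hc : Continuous m := by
      show Continuous (fun θ : ℝ => Real.cos θ • ν + Real.sin θ • w)
      fun_prop
    have h := hc.tendsto 0
    simpa [m] using h
  have hmn : ∀ θ, ‖m θ‖ = 1 := by
    intro θ
    have h2 : ‖m θ‖ ^ 2 = 1 := by
      rw [← real_inner_self_eq_norm_sq]
      show (inner ℝ (Real.cos θ • ν + Real.sin θ • w) (Real.cos θ • ν + Real.sin θ • w) : ℝ) = 1
      rw [inner_add_left, inner_add_right, inner_add_right, real_inner_smul_left, real_inner_smul_left,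
        real_inner_smul_left, real_inner_smul_left, real_inner_smul_right, real_inner_smul_right,
        real_inner_smul_right, real_inner_smul_right, real_inner_comm ν w, hνw, real_inner_self_eq_norm_sq,
        real_inner_self_eq_norm_sq, hν, hw]
      nlinarith [Real.sin_sq_add_cos_sq θ]
    have h3 := norm_nonneg (m θ)
    nlinarith
  obtain ⟨s, hs⟩ := key.self_of_nhds hν
  have hev : ∀ᶠ θ : ℝ in 𝓝 0, ∃ s : ℝ, p - p' = s • m θ := (hm.eventually key).mono fun θ h => h (hmn θ)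
  obtain ⟨ε, hε, hball⟩ := Metric.eventually_nhds_iff.1 hev
  have hmin : 0 < min (ε / 2) 1 := lt_min (half_pos hε) one_pos
  obtain ⟨s', hs'⟩ := hball (y := min (ε / 2) 1) (by
    rw [Real.dist_eq, sub_zero, abs_of_pos hmin]
    exact lt_of_le_of_lt (min_le_left _ _) (half_lt_self hε))
  -- `s ν = s' (cos θ ν + sin θ w)`
  have hsin : 0 < Real.sin (min (ε / 2) 1) :=
    Real.sin_pos_of_pos_of_lt_pi hmin (lt_of_le_of_lt (min_le_right _ _) (by linarith [Real.pi_gt_three]))
  have h1 : (inner ℝ (p - p') w : ℝ) = 0 := by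
    rw [hs, real_inner_smul_left, hνw, mul_zero]
  have h2 : (inner ℝ (p - p') w : ℝ) = s' * Real.sin (min (ε / 2) 1) := by
    rw [hs', real_inner_smul_left]
    show s' * (inner ℝ (Real.cos (min (ε / 2) 1) • ν + Real.sin (min (ε / 2) 1) • w) w : ℝ) = _
    rw [inner_add_left, real_inner_smul_left, real_inner_smul_left, hνw, real_inner_self_eq_norm_sq, hw]
    ring
  have h3 : s' = 0 := by
    rw [h1] at h2
    exact (mul_eq_zero.1 h2.symm).resolve_right hsin.ne'
  rw [h3, zero_smul] at hs'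
  exact sub_eq_zero.1 hs'

end Pool.Helper8.LE
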