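import Pool.Agent.Helper8.LE.Basic

/-!
# Local equality (MP_26ac92_gt): uniqueness of the level, face points for all directions
-/

set_option autoImplicit false

namespace Pool.Helper8.LE

open MeasureTheory Filter Topology

variable {n : ℕ} {K : Set (E n)}

/-- Two orthonormal vectors orthogonal to two given vectors are not available in dimension 3; here: two orthonormal
vectors orthogonal to one vector. -/
theorem exists_two (hn : 3 ≤ n) (u : E n) :
    ∃ a b : E n, ‖a‖ = 1 ∧ ‖b‖ = 1 ∧ (inner ℝ a b : ℝ) = 0 ∧ (inner ℝ u a : ℝ) = 0 ∧ (inner ℝ u b : ℝ) = 0 := by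
  have hfin : Module.finrank ℝ (E n) = n := by simp
  have h1 : n - 1 ≤ Module.finrank ℝ ((ℝ ∙ u)ᗮ : Submodule ℝ (E n)) := by
    have h2 := Submodule.finrank_add_finrank_orthogonal (ℝ ∙ u : Submodule ℝ (E n))
    have h3 : Module.finrank ℝ (ℝ ∙ u : Submodule ℝ (E n)) ≤ 1 := by
      simpa using finrank_span_le_card (R := ℝ) ({u} : Set (E n))
    omega
  set B := stdOrthonormalBasis ℝ ((ℝ ∙ u)ᗮ : Submodule ℝ (E n)) with hB
  have h0 : 0 < Module.finrank ℝ ((ℝ ∙ u)ᗮ : Submodule ℝ (E n)) := by omega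
  have h1' : 1 < Module.finrank ℝ ((ℝ ∙ u)ᗮ : Submodule ℝ (E n)) := by omega
  refine ⟨(B ⟨0, h0⟩ : E n), (B ⟨1, h1'⟩ : E n), ?_, ?_, ?_, ?_, ?_⟩
  · exact B.orthonormal.1 ⟨0, h0⟩
  · exact B.orthonormal.1 ⟨1, h1'⟩
  · exact B.orthonormal.2 (i := ⟨0, h0⟩) (j := ⟨1, h1'⟩) (by simp)
  · exact Submodule.mem_orthogonal_singleton_iff_inner_right.1 (B ⟨0, h0⟩).2
  · exact Submodule.mem_orthogonal_singleton_iff_inner_right.1 (B ⟨1, h1'⟩).2

/-- A unit vector orthogonal to two given vectors. -/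
theorem exists_one (hn : 3 ≤ n) (u v : E n) :
    ∃ a : E n, ‖a‖ = 1 ∧ (inner ℝ u a : ℝ) = 0 ∧ (inner ℝ v a : ℝ) = 0 := by
  have hfin : Module.finrank ℝ (E n) = n := by simp
  set S : Submodule ℝ (E n) := (ℝ ∙ u) ⊔ (ℝ ∙ v) with hS
  have h2 := Submodule.finrank_add_finrank_orthogonal S
  have h3 : Module.finrank ℝ S ≤ 2 := by
    have h4 := Submodule.finrank_add_le_finrank_add_finrank (ℝ ∙ u : Submodule ℝ (E n)) (ℝ ∙ v)
    have h5 : Module.finrank ℝ (ℝ ∙ u : Submodule ℝ (E n)) ≤ 1 := by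
      simpa using finrank_span_le_card (R := ℝ) ({u} : Set (E n))
    have h6 : Module.finrank ℝ (ℝ ∙ v : Submodule ℝ (E n)) ≤ 1 := by
      simpa using finrank_span_le_card (R := ℝ) ({v} : Set (E n))
    have h7 : Module.finrank ℝ S = Module.finrank ℝ ((ℝ ∙ u) ⊔ (ℝ ∙ v) : Submodule ℝ (E n)) := rfl
    omega
  have h0 : 0 < Module.finrank ℝ (Sᗮ : Submodule ℝ (E n)) := by omega
  set B := stdOrthonormalBasis ℝ (Sᗮ : Submodule ℝ (E n)) with hB
  refine ⟨(B ⟨0, h0⟩ : E n), ?_, ?_, ?_⟩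
  · exact B.orthonormal.1 ⟨0, h0⟩
  · exact (Submodule.mem_orthogonal S _).1 (B ⟨0, h0⟩).2 u (Submodule.mem_sup_left (Submodule.mem_span_singleton_self u))
  · exact (Submodule.mem_orthogonal S _).1 (B ⟨0, h0⟩).2 v (Submodule.mem_sup_right (Submodule.mem_span_singleton_self v))

/-- The vector `u`, made orthogonal to `a` and `b` (Gram formula without denominators). -/
noncomputable def G (u a b : E n) : E n :=
  ((inner ℝ a a : ℝ) * inner ℝ b b - (inner ℝ a b : ℝ) ^ 2) • u -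
    ((inner ℝ u a : ℝ) * inner ℝ b b - (inner ℝ u b : ℝ) * inner ℝ a b) • a -
    ((inner ℝ u b : ℝ) * inner ℝ a a - (inner ℝ u a : ℝ) * inner ℝ a b) • b

theorem G_left (u a b : E n) : (inner ℝ (G u a b) a : ℝ) = 0 := by
  unfold G
  simp only [inner_sub_left, real_inner_smul_left]
  rw [real_inner_comm a b]
  ring

theorem G_right (u a b : E n) : (inner ℝ (G u a b) b : ℝ) = 0 := by
  unfold G
  simp only [inner_sub_left, real_inner_smul_left]
  ring

theorem G_tendsto {u ν0 ν1 : E n} (h0 : ‖ν0‖ = 1) (h1 : ‖ν1‖ = 1) (h01 : (inner ℝ ν0 ν1 : ℝ) = 0)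
    (hu0 : (inner ℝ u ν0 : ℝ) = 0) (hu1 : (inner ℝ u ν1 : ℝ) = 0) {a b : ℕ → E n}
    (ha : Tendsto a atTop (𝓝 ν0)) (hb : Tendsto b atTop (𝓝 ν1)) :
    Tendsto (fun k => G u (a k) (b k)) atTop (𝓝 u) := by
  have hG : G u ν0 ν1 = u := by
    unfold G
    rw [real_inner_self_eq_norm_sq, real_inner_self_eq_norm_sq, h0, h1, h01, hu0, hu1]
    simp
  have hc : Tendsto (fun k => G u (a k) (b k)) atTop (𝓝 (G u ν0 ν1)) := by
    unfold G
    refine Tendsto.sub (Tendsto.sub (Tendsto.smul ?_ tendsto_const_nhds) (Tendsto.smul ?_ ha)) (Tendsto.smul ?_ hb)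
    · exact ((ha.inner ha).mul (hb.inner hb)).sub ((ha.inner hb).pow 2)
    · exact ((tendsto_const_nhds.inner ha).mul (hb.inner hb)).sub ((tendsto_const_nhds.inner hb).mul (ha.inner hb))
    · exact ((tendsto_const_nhds.inner hb).mul (ha.inner ha)).sub ((tendsto_const_nhds.inner ha).mul (ha.inner hb))
  rwa [hG] at hc

/-- Approximation of a unit vector orthogonal to `u` by directions with unique face point and positive product with `w`. -/
theorem approx (hK : IsCompact K) (hne : K.Nonempty) {w ν : E n} (hw : w ≠ 0) (hν : (inner ℝ w ν : ℝ) = 0) :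
    ∃ a : ℕ → E n, Tendsto a atTop (𝓝 ν) ∧ ∀ k, a k ∈ DD K ∧ 0 < (inner ℝ w (a k) : ℝ) := by
  set O : Set (E n) := {y | 0 < (inner ℝ w y : ℝ)} with hO
  have hOo : IsOpen O := isOpen_lt continuous_const (by fun_prop)
  have h1 : O ⊆ closure (O ∩ DD K) := (dense_DD hK hne).open_subset_closure_inter hOo
  have h2 : ν ∈ closure O := by
    refine mem_closure_of_tendsto (b := atTop) (f := fun k : ℕ => ν + (1 / ((k : ℝ) + 1)) • w) ?_ ?_
    · have h3 : Tendsto (fun k : ℕ => ν + (1 / ((k : ℝ) + 1)) • w) atTop (𝓝 (ν + (0 : ℝ) • w)) :=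
        tendsto_const_nhds.add (tendsto_one_div_add_atTop_nhds_zero_nat.smul tendsto_const_nhds)
      simpa using h3
    · refine Eventually.of_forall fun k => ?_
      show 0 < (inner ℝ w (ν + (1 / ((k : ℝ) + 1)) • w) : ℝ)
      rw [inner_add_right, hν, zero_add, real_inner_smul_right, real_inner_self_eq_norm_sq]
      have := norm_pos_iff.2 hw
      positivity
  have h3 : ν ∈ closure (O ∩ DD K) := by
    have := closure_mono h1 h2
    rwa [closure_closure] at this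
  obtain ⟨a, ha, hat⟩ := mem_closure_iff_seq_limit.1 h3
  exact ⟨a, hat, fun k => ⟨(ha k).2, (ha k).1⟩⟩

/-- Uniqueness of the admissible level. -/
theorem uniq (hn : 3 ≤ n) (hK : IsCompact K) (hne : K.Nonempty) {C : Set (E n)} (hC : IsOpen C)
    (hA : ∀ u ∈ C, u ≠ 0 ∧ ∃ t, Ad K u t) {u : E n} (hu : u ∈ C) {t1 t2 : ℝ} (h1 : Ad K u t1) (h2 : Ad K u t2) :
    t1 = t2 := by
  wlog hlt : t1 < t2 generalizing t1 t2 with H
  · rcases lt_trichotomy t1 t2 with h | h | h
    · exact absurd h hlt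
    · exact h
    · exact (H h2 h1 h).symm
  exfalso
  obtain ⟨M, hM⟩ := hK.isBounded.exists_norm_le
  obtain ⟨ν0, ν1, hν0, hν1, h01, hu0, hu1⟩ := exists_two hn u
  have hu' := (hA u hu).1
  obtain ⟨a, hat, ha⟩ := approx hK hne hu' hu0
  obtain ⟨b, hbt, hb⟩ := approx hK hne (w := -u) (neg_ne_zero.2 hu') (by rw [inner_neg_left, hu1, neg_zero])
  have hG := G_tendsto hν0 hν1 h01 hu0 hu1 hat hbt
  have hev : ∀ᶠ k in atTop, G u (a k) (b k) ∈ C := hG.eventually (hC.mem_nhds hu)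
  have hkey : ∀ᶠ k in atTop, t2 - t1 ≤ (M + M) * ‖u - G u (a k) (b k)‖ := by
    filter_upwards [hev] with k hk
    obtain ⟨hg0, t, ht⟩ := hA _ hk
    obtain ⟨x, hx, hxu⟩ := (ha k).1
    obtain ⟨y, hy, hyu⟩ := (hb k).1
    have e1 : (inner ℝ x (G u (a k) (b k)) : ℝ) = t := level_eq hg0 (G_left _ _ _) ht hx hxu
    have e2 : (inner ℝ y (G u (a k) (b k)) : ℝ) = t := level_eq hg0 (G_right _ _ _) ht hy hyu
    have e3 : t2 ≤ inner ℝ x u := by
      have h := sgn hu' h2 hx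
      have hp := (ha k).2
      by_contra hc
      push Not at hc
      nlinarith
    have e4 : (inner ℝ y u : ℝ) ≤ t1 := by
      have h := sgn hu' h1 hy
      have hp := (hb k).2
      rw [inner_neg_left] at hp
      by_contra hc
      push Not at hc
      nlinarith
    have e5 : (inner ℝ (x - y) (u - G u (a k) (b k)) : ℝ) = inner ℝ x u - inner ℝ y u := by
      simp only [inner_sub_left, inner_sub_right]
      rw [e1, e2]; ring
    have e6 : (inner ℝ (x - y) (u - G u (a k) (b k)) : ℝ) ≤ ‖x - y‖ * ‖u - G u (a k) (b k)‖ :=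
      real_inner_le_norm _ _
    have e7 : ‖x - y‖ ≤ M + M := (norm_sub_le _ _).trans (add_le_add (hM x hx.1) (hM y hy.1))
    have e8 := mul_le_mul_of_nonneg_right e7 (norm_nonneg (u - G u (a k) (b k)))
    linarith
  have hlim : Tendsto (fun k => (M + M) * ‖u - G u (a k) (b k)‖) atTop (𝓝 ((M + M) * ‖u - u‖)) :=
    tendsto_const_nhds.mul (tendsto_const_nhds.sub hG).norm
  have := ge_of_tendsto hlim hkey
  rw [sub_self, norm_zero, mul_zero] at this
  linarith

/-- A face point for every unit direction whose products with the directions orthogonal to it are the admissible levels. -/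
theorem point (hK : IsCompact K) (hne : K.Nonempty) {C : Set (E n)} (hC : IsOpen C)
    (hA : ∀ u ∈ C, u ≠ 0 ∧ ∃ t, Ad K u t) {ν : E n} (hν : ‖ν‖ = 1) :
    ∃ x, Fc K ν x ∧ ∀ u ∈ C, (inner ℝ u ν : ℝ) = 0 → Ad K u (inner ℝ x u) := by
  have h0 : ν ∈ closure (DD K) := by rw [(dense_DD hK hne).closure_eq]; trivial
  obtain ⟨a, ha, hat⟩ := mem_closure_iff_seq_limit.1 h0
  choose x hx hxu using ha
  obtain ⟨x0, hx0, φ, hφ, hlim⟩ := hK.tendsto_subseq (fun k => (hx k).1)
  have hat' : Tendsto (a ∘ φ) atTop (𝓝 ν) := hat.comp hφ.tendsto_atTop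
  refine ⟨x0, fc_closed hK.isClosed hat' hlim (fun k => hx (φ k)), fun u hu huν => ?_⟩
  -- approximate `u`
  have h1 : Tendsto (fun k => (inner ℝ (a (φ k)) (a (φ k)) : ℝ) • u - (inner ℝ u (a (φ k)) : ℝ) • a (φ k)) atTop
      (𝓝 u) := by
    have h2 : Tendsto (fun k => (inner ℝ (a (φ k)) (a (φ k)) : ℝ) • u - (inner ℝ u (a (φ k)) : ℝ) • a (φ k)) atTop
        (𝓝 ((inner ℝ ν ν : ℝ) • u - (inner ℝ u ν : ℝ) • ν)) :=
      ((hat'.inner hat').smul tendsto_const_nhds).sub ((tendsto_const_nhds.inner hat').smul hat')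
    rwa [real_inner_self_eq_norm_sq, hν, huν, one_pow, one_smul, zero_smul, sub_zero] at h2
  refine ad_closed hK.isClosed (hA u hu).1 h1 (hlim.inner h1) ?_
  filter_upwards [h1.eventually (hC.mem_nhds hu)] with k hk
  obtain ⟨hg0, t, ht⟩ := hA _ hk
  have e0 : (inner ℝ ((inner ℝ (a (φ k)) (a (φ k)) : ℝ) • u - (inner ℝ u (a (φ k)) : ℝ) • a (φ k)) (a (φ k)) : ℝ) = 0 := by
    rw [inner_sub_left, real_inner_smul_left, real_inner_smul_left]; ring
  have e1 := level_eq hg0 e0 ht (hx (φ k)) (hxu (φ k))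
  simp only [Function.comp_apply]
  rw [e1]
  exact ht

end Pool.Helper8.LE
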